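import Mathlib
import Pool.Agent.U773.BD.Dep

/-!
# Long blocks of digits of algebraic numbers, in any two bases, never write close integers

Let `x, y` be real irrational algebraic numbers and `b, c ≥ 2`.  A block of `m` digits of `x` in base
`b` (the digits `n + 1, …, n + m` after the point) and a block of digits of `y` in base `c` never
write two integers whose distance is less than `b ^ ((1 - δ) m)`, when the places are `O(m)` and `m`
is large, except in the trivial case in which `b ^ (n + m) x - c ^ (n' + m') y` is rational.  In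
particular no long block of binary digits of `√2` is, as an integer, a block of digits of `√2` in a
base which is not a power of `2`.
-/

set_option autoImplicit false

namespace Pool.Agent.Results.MP_0308e6_nt.CommonBlocks

/-- `W b x n m`: the integer written in base `b` by the `m` digits of `x` after the place `n`, that is
by the digits `⌊b ^ k x⌋ mod b`, `n < k ≤ n + m` -/
noncomputable def W (b : ℕ) (x : ℝ) (n m : ℕ) : ℤ := ⌊(b : ℝ) ^ (n + m) * x⌋ % (b : ℤ) ^ m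

/-- `res u D x = ⌊u x⌋ mod D`, in `{0, …, D - 1}` -/
noncomputable def res (u D : ℕ) (x : ℝ) : ℤ := ⌊(u : ℝ) * x⌋ % (D : ℤ)

/-- `SUnit S D`: the integer `D` is positive and all its prime factors lie in `S` -/
def SUnit (S : Finset ℕ) (D : ℕ) : Prop := 0 < D ∧ ∀ p : ℕ, p.Prime → p ∣ D → p ∈ S

/-- (1) Let `x, y` be real irrational algebraic numbers, `b, c ≥ 2`, `C` real and `δ > 0`.  For all
large `m` and all `n, n', m' ≤ C m` such that `b ^ (n + m) x - c ^ (n' + m') y` is irrational,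
`|W b x n m - W c y n' m'| ≥ b ^ ((1 - δ) m)`.
(2) For `c ≥ 2`, `C` real and `δ > 0`: for all large `m` and all `n, n', m' ≤ C m` with
`2 ^ (n + m) ≠ c ^ (n' + m')`, `|W 2 √2 n m - W c √2 n' m'| ≥ 2 ^ ((1 - δ) m)`.
(3) Let `x, y` be real irrational algebraic numbers, `b, c ≥ 2` multiplicatively independent, `S` a
finite set of primes, `C` real, `ε > 0`.  For all large `N` and all `i, j, D, D'` such that `D, D'`
are composed of primes of `S`, `D ≤ b ^ i ≤ e ^ (C N)` and `D' ≤ c ^ j ≤ e ^ (C N)`,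
`max (D, D') e ^ (-ε N) ≤ 1 + |⌊b ^ i x⌋ mod D - ⌊c ^ j y⌋ mod D'|`.
(4) Let `x, y` be real algebraic numbers such that `1, x, y` are linearly independent over `ℚ`, `S` a
finite set of primes, `C` real, `ε > 0`.  For all large `N` and all `u, w, D, D'` composed of primes
of `S` with `D ≤ u ≤ e ^ (C N)` and `D' ≤ w ≤ e ^ (C N)`,
`max (D, D') e ^ (-ε N) ≤ 1 + |⌊u x⌋ mod D - ⌊w y⌋ mod D'|`. -/
theorem result :
    (∀ x y : ℝ, IsAlgebraic ℚ x → Irrational x → IsAlgebraic ℚ y → Irrational y →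
      ∀ b c : ℕ, 2 ≤ b → 2 ≤ c → ∀ C δ : ℝ, 0 < δ →
      ∃ U : ℕ, ∀ m : ℕ, U ≤ m → ∀ n n' m' : ℕ, (n : ℝ) ≤ C * m → (n' : ℝ) ≤ C * m →
        (m' : ℝ) ≤ C * m → Irrational ((b : ℝ) ^ (n + m) * x - (c : ℝ) ^ (n' + m') * y) →
        (b : ℝ) ^ ((1 - δ) * (m : ℝ)) ≤ |(W b x n m : ℝ) - W c y n' m'|) ∧
    (∀ c : ℕ, 2 ≤ c → ∀ C δ : ℝ, 0 < δ →
      ∃ U : ℕ, ∀ m : ℕ, U ≤ m → ∀ n n' m' : ℕ, (n : ℝ) ≤ C * m → (n' : ℝ) ≤ C * m →
        (m' : ℝ) ≤ C * m → 2 ^ (n + m) ≠ c ^ (n' + m') →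
        (2 : ℝ) ^ ((1 - δ) * (m : ℝ)) ≤ |(W 2 (√2) n m : ℝ) - W c (√2) n' m'|) ∧
    (∀ x y : ℝ, IsAlgebraic ℚ x → Irrational x → IsAlgebraic ℚ y → Irrational y →
      ∀ b c : ℕ, 2 ≤ b → 2 ≤ c → (∀ i j : ℕ, b ^ i = c ^ j → i = 0) →
      ∀ S : Finset ℕ, (∀ p ∈ S, p.Prime) → ∀ C ε : ℝ, 0 < ε →
      ∃ U : ℕ, ∀ N : ℕ, U ≤ N → ∀ i j D D' : ℕ, SUnit S D → SUnit S D' → D ≤ b ^ i →
        D' ≤ c ^ j → ((b ^ i : ℕ) : ℝ) ≤ Real.exp (C * N) →
        ((c ^ j : ℕ) : ℝ) ≤ Real.exp (C * N) →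
        max (D : ℝ) D' * Real.exp (-(ε * N)) ≤
          1 + |(res (b ^ i) D x : ℝ) - res (c ^ j) D' y|) ∧
    (∀ x y : ℝ, IsAlgebraic ℚ x → IsAlgebraic ℚ y →
      (∀ a b c : ℚ, (a : ℝ) + b * x + c * y = 0 → a = 0 ∧ b = 0 ∧ c = 0) →
      ∀ S : Finset ℕ, (∀ p ∈ S, p.Prime) → ∀ C ε : ℝ, 0 < ε →
      ∃ U : ℕ, ∀ N : ℕ, U ≤ N → ∀ u w D D' : ℕ, SUnit S u → SUnit S w → SUnit S D →
        SUnit S D' → D ≤ u → D' ≤ w → (u : ℝ) ≤ Real.exp (C * N) →
        (w : ℝ) ≤ Real.exp (C * N) →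
        max (D : ℝ) D' * Real.exp (-(ε * N)) ≤ 1 + |(res u D x : ℝ) - res w D' y|) := by
  refine ⟨?_, ?_, ?_, ?_⟩
  · intro x y hx hxi hy hyi b c hb hc C δ hδ
    exact Pool.Agent.U773.BD.complete hx hxi hy hyi hb hc C δ hδ
  · intro c hc C δ hδ
    have halg : IsAlgebraic ℚ (√2) := by
      refine ⟨Polynomial.X ^ 2 - Polynomial.C 2, ?_, ?_⟩
      · exact Polynomial.X_pow_sub_C_ne_zero (by norm_num) 2
      · simp
    obtain ⟨U, hU⟩ := Pool.Agent.U773.BD.complete halg irrational_sqrt_two halg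
      irrational_sqrt_two le_rfl hc C δ hδ
    refine ⟨U, fun m hm n n' m' h1 h2 h3 hne => ?_⟩
    have h4 := hU m hm n n' m' h1 h2 h3 (by
      have h5 : (((2 : ℕ) : ℝ)) ^ (n + m) * √2 - (c : ℝ) ^ (n' + m') * √2 =
          ((((2 : ℤ) ^ (n + m) - (c : ℤ) ^ (n' + m') : ℤ)) : ℝ) * √2 := by
        push_cast
        ring
      rw [h5]
      refine irrational_sqrt_two.intCast_mul ?_
      intro h0
      apply hne
      have h6 : (2 : ℤ) ^ (n + m) = (c : ℤ) ^ (n' + m') := by linarith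
      exact_mod_cast h6)
    exact_mod_cast h4
  · intro x y hx hxi hy hyi b c hb hc hbc S hS C ε hε
    exact Pool.Agent.U773.BD.final_bases hx hxi hy hyi hS hb hc hbc C ε hε
  · intro x y hx hy hind S hS C ε hε
    exact Pool.Agent.U773.BD.final_indep hx hy hind hS C ε hε

end Pool.Agent.Results.MP_0308e6_nt.CommonBlocks
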