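import Mathlib
import Pool.Agent.U773.DB.Pell

/-!
# Long blocks of digits of algebraic numbers and good approximations to algebraic numbers

Let `x` and `α` be real irrational algebraic numbers and `b ≥ 2`.  The digits of `x` in base `b` and
the digits of the denominators (or numerators) `q` of the convergents of `α` have no long common
blocks: `m` consecutive digits of `x` and `m` consecutive digits of `q` never write two integers
whose distance is less than `b ^ ((1 - δ) m)`, when the places and `log q` are `O(m)` and `m` is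
large.  In particular no long block of binary digits of `√2` occurs in the binary expansion of a Pell
number, or of the integer part of `c (1 + √2) ^ k`, `c` algebraic.
-/

set_option autoImplicit false

namespace Pool.Agent.Results.MP_0308e6_nt.ConvergentsInDigits

/-- `W b x n m`: the integer written in base `b` by the `m` digits of `x` after the place `n`, that is
by the digits `⌊b ^ k x⌋ mod b`, `n < k ≤ n + m` -/
noncomputable def W (b : ℕ) (x : ℝ) (n m : ℕ) : ℤ := ⌊(b : ℝ) ^ (n + m) * x⌋ % (b : ℤ) ^ m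

/-- `B b z j m`: the integer written in base `b` by the `m` digits of `z` at the places
`b ^ j, …, b ^ (j + m - 1)`, that is by the digits `⌊z / b ^ k⌋ mod b`, `j ≤ k < j + m` -/
noncomputable def B (b : ℕ) (z : ℝ) (j m : ℕ) : ℤ := ⌊z / (b : ℝ) ^ j⌋ % (b : ℤ) ^ m

/-- the distance to the nearest integer -/
noncomputable def dist (z : ℝ) : ℝ := |z - round z|

/-- `SUnit S D`: the integer `D` is positive and all its prime factors lie in `S` -/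
def SUnit (S : Finset ℕ) (D : ℕ) : Prop := 0 < D ∧ ∀ p : ℕ, p.Prime → p ∣ D → p ∈ S

/-- (1) Let `b ≥ 2`, `K, C` real, `δ > 0`.  For all large `m`, all `n, j ≤ C m` and all nonnegative
integers `p, q` with `|p² - 2 q²| ≤ K` and `q ≤ e ^ (C m)`, `|W b √2 n m - B b z j m| ≥ b ^ ((1-δ) m)`
for `z = q` and for `z = p`.
(2) Let `x, α` be real irrational algebraic numbers, `η` real algebraic.  For all large `m`, all
`n, j ≤ C m`, all integers `q, p` with `|q| |α q - p| ≤ K`, `|q| ≤ e ^ (C m)` and all real `z` with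
`|z - η q| ≤ K`, `|W b x n m - B b z j m| ≥ b ^ ((1 - δ) m)`.
(3) Let `l > 1` be a real irrational number with `l² = t l - s`, `t` an integer and `s = ±1`, and let
`c` be real algebraic.  For all large `m` and all `n, j, k ≤ C m`,
`|W b x n m - B b (c l ^ k) j m| ≥ b ^ ((1 - δ) m)`.
(4) Let `α_i, γ_i, η, η'` be real algebraic, `1, α_1, …, α_d` linearly independent over `ℚ`.  For all
large `m`, all `n ≤ C m` and all integers `q, M` with `m ≤ |q| ≤ e ^ (C m)`,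
`b ^ ((1 - δ) m) ≤ (1 + |W b x n m - (η q + η') - b ^ m M|) |q| ∏ ‖α_i q - γ_i‖`.
(5) Let `S` be a finite set of primes.  For all large `N` and all `u, D` composed of primes of `S`
with `D ≤ u ≤ e ^ (C N)` and all integers `q, M` with `N ≤ |q| ≤ e ^ (C N)`,
`D e ^ (-δ N) ≤ (1 + |x u - D M - (η q + η')|) |q| ∏ ‖α_i q - γ_i‖`. -/
theorem result :
    (∀ b : ℕ, 2 ≤ b → ∀ K C δ : ℝ, 0 < δ →
      ∃ U : ℕ, ∀ m : ℕ, U ≤ m → ∀ n j : ℕ, (n : ℝ) ≤ C * m → (j : ℝ) ≤ C * m → ∀ p q : ℕ,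
        |(p : ℝ) ^ 2 - 2 * (q : ℝ) ^ 2| ≤ K → (q : ℝ) ≤ Real.exp (C * m) →
        (b : ℝ) ^ ((1 - δ) * (m : ℝ)) ≤ |(W b (√2) n m : ℝ) - B b q j m| ∧
        (b : ℝ) ^ ((1 - δ) * (m : ℝ)) ≤ |(W b (√2) n m : ℝ) - B b p j m|) ∧
    (∀ x α η : ℝ, IsAlgebraic ℚ x → Irrational x → IsAlgebraic ℚ α → Irrational α →
      IsAlgebraic ℚ η → ∀ b : ℕ, 2 ≤ b → ∀ K C δ : ℝ, 0 < δ →
      ∃ U : ℕ, ∀ m : ℕ, U ≤ m → ∀ n j : ℕ, (n : ℝ) ≤ C * m → (j : ℝ) ≤ C * m → ∀ q p : ℤ,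
        |(q : ℝ)| * |α * q - p| ≤ K → |(q : ℝ)| ≤ Real.exp (C * m) →
        ∀ z : ℝ, |z - η * q| ≤ K →
        (b : ℝ) ^ ((1 - δ) * (m : ℝ)) ≤ |(W b x n m : ℝ) - B b z j m|) ∧
    (∀ x l c : ℝ, IsAlgebraic ℚ x → Irrational x → ∀ t s : ℤ, l ^ 2 = t * l - s →
      (s = 1 ∨ s = -1) → 1 < l → Irrational l → IsAlgebraic ℚ c →
      ∀ b : ℕ, 2 ≤ b → ∀ C δ : ℝ, 0 < δ →
      ∃ U : ℕ, ∀ m : ℕ, U ≤ m → ∀ n j k : ℕ, (n : ℝ) ≤ C * m → (j : ℝ) ≤ C * m →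
        (k : ℝ) ≤ C * m →
        (b : ℝ) ^ ((1 - δ) * (m : ℝ)) ≤ |(W b x n m : ℝ) - B b (c * l ^ k) j m|) ∧
    (∀ (d : ℕ) (x η η' : ℝ) (α γ : Fin d → ℝ), IsAlgebraic ℚ x → Irrational x →
      IsAlgebraic ℚ η → IsAlgebraic ℚ η' → (∀ i, IsAlgebraic ℚ (α i)) →
      (∀ i, IsAlgebraic ℚ (γ i)) →
      (∀ (a : ℚ) (c : Fin d → ℚ), (a : ℝ) + ∑ i, (c i : ℝ) * α i = 0 → a = 0 ∧ c = 0) →
      ∀ b : ℕ, 2 ≤ b → ∀ C δ : ℝ, 0 < δ →
      ∃ U : ℕ, ∀ m : ℕ, U ≤ m → ∀ n : ℕ, (n : ℝ) ≤ C * m → ∀ q M : ℤ,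
        (m : ℝ) ≤ |(q : ℝ)| → |(q : ℝ)| ≤ Real.exp (C * m) →
        (b : ℝ) ^ ((1 - δ) * (m : ℝ)) ≤
          (1 + |(W b x n m : ℝ) - (η * q + η') - (b : ℝ) ^ m * M|) *
          (|(q : ℝ)| * ∏ i, dist (α i * q - γ i))) ∧
    (∀ (d : ℕ) (x η η' : ℝ) (α γ : Fin d → ℝ), IsAlgebraic ℚ x → Irrational x →
      IsAlgebraic ℚ η → IsAlgebraic ℚ η' → (∀ i, IsAlgebraic ℚ (α i)) →
      (∀ i, IsAlgebraic ℚ (γ i)) →
      (∀ (a : ℚ) (c : Fin d → ℚ), (a : ℝ) + ∑ i, (c i : ℝ) * α i = 0 → a = 0 ∧ c = 0) →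
      ∀ S : Finset ℕ, (∀ p ∈ S, p.Prime) → ∀ C δ : ℝ, 0 < δ →
      ∃ U : ℕ, ∀ N : ℕ, U ≤ N → ∀ u D : ℕ, SUnit S u → SUnit S D → D ≤ u →
        (u : ℝ) ≤ Real.exp (C * N) → ∀ q M : ℤ,
        (N : ℝ) ≤ |(q : ℝ)| → |(q : ℝ)| ≤ Real.exp (C * N) →
        D * Real.exp (-(δ * N)) ≤ (1 + |x * u - D * M - (η * q + η')|) *
          (|(q : ℝ)| * ∏ i, dist (α i * q - γ i))) := by
  have hint : ∀ (d : ℕ) (α : Fin d → ℝ),
      (∀ (a : ℚ) (c : Fin d → ℚ), (a : ℝ) + ∑ i, (c i : ℝ) * α i = 0 → a = 0 ∧ c = 0) →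
      ∀ (a : ℤ) (c : Fin d → ℤ), (a : ℝ) + ∑ j, (c j : ℝ) * α j = 0 → c = 0 := by
    intro d α h a c h0
    have h1 := (h a (fun i => (c i : ℚ)) (by push_cast; exact h0)).2
    funext i
    have h2 := congrFun h1 i
    simpa using h2
  refine ⟨?_, ?_, ?_, ?_, ?_⟩
  · intro b hb K C δ hδ
    exact Pool.Agent.U773.DB.pell hb K C δ hδ
  · intro x α η hx hxi hα hαi hη b hb K C δ hδ
    exact Pool.Agent.U773.DB.convergents hx hxi hα hαi η hη hb K C δ hδ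
  · intro x l c hx hxi t s hl hs hl1 hli hc b hb C δ hδ
    exact Pool.Agent.U773.DB.units hx hxi hl hs hl1 hli c hc hb C δ hδ
  · intro d x η η' α γ hx hxi hη hη' hα hγ hind b hb C δ hδ
    exact Pool.Agent.U773.DB.digits hx hxi α γ hα hγ (hint d α hind) η η' hη hη' hb C δ hδ
  · intro d x η η' α γ hx hxi hη hη' hα hγ hind S hS C δ hδ
    exact Pool.Agent.U773.DB.app hx hxi α γ hα hγ (hint d α hind) η η' hη hη' hS C δ hδ

end Pool.Agent.Results.MP_0308e6_nt.ConvergentsInDigits
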