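import Pool.Agent.U278.SD.Quad

/-!
# At least `(√(11/5) - o(1)) √n` zeros and ones among the first `n` binary digits of `√2`

No hypothesis is assumed.  `√(11/5) = 1.4832...`; the constant of the starting results is
`7/√24 = 1.4288...`.

* at least `√(11/5) √n - C` of the first `n` binary digits of `√2` are ones;
* for every `ε > 0` and all large `n` at least `(√(11/5) - ε) √n` of them are zeros;
* for every `d` that is not a square and every base `b ≥ 2` the sum of the first `n` digits of `√d`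
  is at least `√(11 (b - 1) gcd(b, 2) / 10) √n - C`;
* for every irrational real `ξ` with `A ξ² + B ξ + C = 0`, `A > 0`, `B`, `C` integers, and every base
  `b ≥ 2`,
  the sum of the first `n` digits `c_k` and the sum of the first `n` complementary digits
  `b - 1 - c_k` are both at least `(√(11 (b - 1) gcd(b, 2 A) / (10 A)) - ε) √n` for all large `n`.

The proof compares the number of pairs of places with a positive semidefinite kernel on a grid of
`65 × 65` points, found by semidefinite programming and checked by the kernel of Lean.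
-/

set_option autoImplicit false

open Finset

namespace Pool.Agent.Results.MP_0308e6_nt.ElevenFifths

/-- the `k`-th digit of `ξ` after the point in base `b` -/
noncomputable def digit (b : ℕ) (ξ : ℝ) (k : ℕ) : ℤ := ⌊ξ * (b : ℝ) ^ k⌋ % (b : ℤ)

lemma digit_neg {b : ℕ} (hb : 2 ≤ b) {ξ : ℝ} (hirr : Irrational ξ) (k : ℕ) :
    digit b (-ξ) k = b - 1 - digit b ξ k := by
  unfold digit
  have h1 : ⌊-ξ * (b : ℝ) ^ k⌋ = -⌊ξ * (b : ℝ) ^ k⌋ - 1 := by
    have h2 : Irrational (ξ * ((b ^ k : ℕ) : ℝ)) := hirr.mul_natCast (by positivity)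
    have h3 : ξ * (b : ℝ) ^ k = ξ * ((b ^ k : ℕ) : ℝ) := by push_cast; rfl
    rw [neg_mul, h3]
    set z : ℝ := ξ * ((b ^ k : ℕ) : ℝ) with hz
    rw [Int.floor_eq_iff]
    push_cast
    have h4 := Int.floor_le z
    have h5 := Int.lt_floor_add_one z
    have h6 : (⌊z⌋ : ℝ) ≠ z := fun h => h2 ⟨(⌊z⌋ : ℚ), by push_cast; exact h⟩
    have h7 : (⌊z⌋ : ℝ) < z := lt_of_le_of_ne h4 h6
    constructor <;> linarith
  rw [h1]
  set m := ⌊ξ * (b : ℝ) ^ k⌋
  have hb' : (0 : ℤ) < b := by exact_mod_cast (by omega : 0 < b)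
  have h8 := Int.emod_add_mul_ediv m b
  have h9 := Int.emod_nonneg m hb'.ne'
  have h10 := Int.emod_lt_of_pos m hb'
  have h11 : -m - 1 = (b - 1 - m % b) + b * (-(m / b) - 1) := by linarith
  rw [h11, Int.add_mul_emod_self_left]
  exact Int.emod_eq_of_lt (by omega) (by omega)

theorem both {b : ℕ} (hb : 2 ≤ b) {A B C : ℤ} (hA : 0 < A) {ξ : ℝ} (hirr : Irrational ξ)
    (hq : (A : ℝ) * ξ ^ 2 + B * ξ + C = 0) (ε : ℝ) (hε : 0 < ε) :
    ∃ n₀ : ℕ, ∀ n : ℕ, n₀ ≤ n →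
      (Real.sqrt (11 * ((b : ℝ) - 1) * (Int.gcd b (2 * A) : ℕ) / (10 * A)) - ε) * Real.sqrt n ≤
        ((∑ k ∈ Icc 1 n, digit b ξ k : ℤ) : ℝ) ∧
      (Real.sqrt (11 * ((b : ℝ) - 1) * (Int.gcd b (2 * A) : ℕ) / (10 * A)) - ε) * Real.sqrt n ≤
        ((∑ k ∈ Icc 1 n, (b - 1 - digit b ξ k) : ℤ) : ℝ) := by
  have hsum : ∀ (η : ℝ) (n : ℕ), ∑ k ∈ range n, ⌊η * (b : ℝ) ^ (k + 1)⌋ % (b : ℤ) =
      ∑ k ∈ Icc 1 n, digit b η k := by
    intro η n
    induction n with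
    | zero => simp
    | succ n ih =>
      rw [sum_range_succ, Finset.sum_Icc_succ_top (by omega), ih]
      rfl
  obtain ⟨n1, h1⟩ := Pool.Agent.U278.SD.quad_real11 hb hA hirr hq ε hε
  obtain ⟨n2, h2⟩ := Pool.Agent.U278.SD.quad_real11 hb (A := A) (B := -B) (C := C) hA hirr.neg
    (by push_cast; linarith) ε hε
  refine ⟨max n1 n2, fun n hn => ⟨?_, ?_⟩⟩
  · have := h1 n ((le_max_left _ _).trans hn)
    rwa [hsum] at this
  · have := h2 n ((le_max_right _ _).trans hn)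
    rw [hsum] at this
    simpa only [digit_neg hb hirr] using this

theorem roots (b d : ℕ) (hb : 2 ≤ b) (hd : ¬ IsSquare d) :
    ∃ C : ℝ, ∀ n : ℕ, Real.sqrt (11 * ((b : ℝ) - 1) * (Nat.gcd b 2 : ℕ) / 10) * Real.sqrt n - C ≤
      ((∑ k ∈ Icc 1 n, digit b (Real.sqrt d) k : ℤ) : ℝ) := by
  obtain ⟨C, h⟩ := Pool.Agent.U278.SD.digit_sum11 d b hd hb
  refine ⟨C, fun n => (h n).trans (le_of_eq ?_)⟩
  induction n with
  | zero => simp
  | succ n ih =>
    rw [sum_range_succ, Finset.sum_Icc_succ_top (by omega)]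
    push_cast
    push_cast at ih
    rw [ih]
    congr 1
    unfold digit
    rw [← Int.natCast_floor_eq_floor (by positivity)]
    push_cast
    rfl

lemma digit_two (k : ℕ) : digit 2 (Real.sqrt 2) k = 0 ∨ digit 2 (Real.sqrt 2) k = 1 := by
  unfold digit
  push_cast
  omega

/-- The result. -/
theorem result :
    (∃ C : ℝ, ∀ n : ℕ, Real.sqrt (11 / 5) * Real.sqrt n - C ≤
      (((Icc 1 n).filter (fun k => digit 2 (Real.sqrt 2) k = 1)).card : ℝ)) ∧
    (∀ ε : ℝ, 0 < ε → ∃ n₀ : ℕ, ∀ n : ℕ, n₀ ≤ n →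
      (Real.sqrt (11 / 5) - ε) * Real.sqrt n ≤
        (((Icc 1 n).filter (fun k => digit 2 (Real.sqrt 2) k = 0)).card : ℝ)) ∧
    (∀ b d : ℕ, 2 ≤ b → ¬ IsSquare d → ∃ C : ℝ, ∀ n : ℕ,
      Real.sqrt (11 * ((b : ℝ) - 1) * (Nat.gcd b 2 : ℕ) / 10) * Real.sqrt n - C ≤
        ((∑ k ∈ Icc 1 n, digit b (Real.sqrt d) k : ℤ) : ℝ)) ∧
    (∀ b : ℕ, 2 ≤ b → ∀ A B C : ℤ, 0 < A → ∀ ξ : ℝ, Irrational ξ →
      (A : ℝ) * ξ ^ 2 + B * ξ + C = 0 → ∀ ε : ℝ, 0 < ε → ∃ n₀ : ℕ, ∀ n : ℕ, n₀ ≤ n →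
        (Real.sqrt (11 * ((b : ℝ) - 1) * (Int.gcd b (2 * A) : ℕ) / (10 * A)) - ε) * Real.sqrt n ≤
          ((∑ k ∈ Icc 1 n, digit b ξ k : ℤ) : ℝ) ∧
        (Real.sqrt (11 * ((b : ℝ) - 1) * (Int.gcd b (2 * A) : ℕ) / (10 * A)) - ε) * Real.sqrt n ≤
          ((∑ k ∈ Icc 1 n, (b - 1 - digit b ξ k) : ℤ) : ℝ)) := by
  refine ⟨?_, ?_, fun b d hb hd => roots b d hb hd,
    fun b hb A B C hA ξ hξ hq ε hε => both hb hA hξ hq ε hε⟩
  · obtain ⟨C, h⟩ := roots 2 2 le_rfl (by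
      rintro ⟨r, hr⟩
      have h1 : r < 2 := by nlinarith
      interval_cases r <;> omega)
    refine ⟨C, fun n => ?_⟩
    have h1 := h n
    have e : 11 * (((2 : ℕ) : ℝ) - 1) * ((Nat.gcd 2 2 : ℕ) : ℝ) / 10 = 11 / 5 := by
      norm_num
    rw [e] at h1
    refine h1.trans (le_of_eq ?_)
    rw [card_filter]
    push_cast
    refine sum_congr rfl fun k _ => ?_
    rcases digit_two k with h3 | h3 <;> rw [h3] <;> norm_num
  · intro ε hε
    obtain ⟨n0, h⟩ := both (b := 2) le_rfl (A := 1) (B := 0) (C := -2) one_pos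
      (ξ := Real.sqrt 2) irrational_sqrt_two (by
        push_cast
        rw [Real.sq_sqrt (by norm_num)]; norm_num) ε hε
    have hc : 11 * (((2 : ℕ) : ℝ) - 1) * ((Int.gcd (2 : ℕ) (2 * 1) : ℕ) : ℝ) /
        (10 * ((1 : ℤ) : ℝ)) = 11 / 5 := by
      have e1 : Int.gcd (2 : ℕ) (2 * 1) = 2 := by decide
      rw [e1]; norm_num
    refine ⟨n0, fun n hn => ?_⟩
    have h2 := (h n hn).2
    rw [hc] at h2
    refine h2.trans (le_of_eq ?_)
    rw [card_filter]
    push_cast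
    refine sum_congr rfl fun k _ => ?_
    rcases digit_two k with h3 | h3 <;> rw [h3] <;> norm_num

end Pool.Agent.Results.MP_0308e6_nt.ElevenFifths
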