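import Mathlib
import Pool.Agent.U773.JB.JointJ

/-!
# Blocks of digits of algebraic numbers at distant places satisfy no approximate linear relation

Let `b ≥ 2` and let `W_j` be the integers written by the blocks of `m` consecutive digits of `√2` in
base `b` at `s` places `n_1 < n_2 < …`, all of size `O(m)`.  If the gaps are large, then the `W_j`
satisfy no approximate linear relation with fixed real algebraic coefficients: `∑ α_j W_j - γ` is not
within `b ^ ((1 - δ) m)` of a multiple of `b ^ m`, and (if some `α_j` is irrational) not within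
`b ^ (-δ m)` of an integer.  So the ratio of two such integers is never within `b ^ (-δ m)` of a given
algebraic number, and the point `(W_1, …, W_s) / b ^ m` has distance at least `b ^ (-δ m)` from every
given hyperplane with algebraic coefficients.  The same is proved for the blocks of digits of several
real algebraic numbers independent with `1`, for several forms at once.
-/

set_option autoImplicit false

namespace Pool.Agent.Results.MP_0308e6_nt.JointBlocks

/-- `W b x n m`: the integer written in base `b` by the `m` digits of `x` after the place `n`, that is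
by the digits `⌊b ^ k x⌋ mod b`, `n < k ≤ n + m` -/
noncomputable def W (b : ℕ) (x : ℝ) (n m : ℕ) : ℤ := ⌊(b : ℝ) ^ (n + m) * x⌋ % (b : ℤ) ^ m

/-- the distance to the nearest integer -/
noncomputable def dist (z : ℝ) : ℝ := |z - round z|

/-- (1) Let `b ≥ 2`, `α_1, …, α_s, γ` real algebraic, the `α_j` not all zero, `C` real, `δ > 0`.  There
is `U` such that for all `m ≥ U`, all places `U ≤ n_j ≤ C m` with `n_i + U ≤ n_j` for `i < j` and all
integers `M`, `|∑ α_j W b √2 n_j m - γ - b ^ m M| ≥ b ^ ((1 - δ) m)`; and if one of the `α_j` is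
irrational, then the distance of `∑ α_j W b √2 n_j m - γ` to the nearest integer is at least
`b ^ (-δ m)`.
(2) Let `x_1, …, x_r` be real algebraic numbers, `1, x_1, …, x_r` linearly independent over `ℚ`,
`b ≥ 2`, `α, α^(1), …, α^(h)` real `s × r` matrices with algebraic entries and `γ, γ_1, …, γ_h` real
algebraic.  Suppose that `α ≠ 0` and that no rational combination of `α, α^(1), …, α^(h)` in which
some `α^(a)` has a nonzero coefficient has only rational entries.  There is `U` such that for all `m`,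
`n_j` as in (1) and all integers `M`, for `L(A) = ∑_{j, k} A_{jk} W b x_k n_j m`,
`b ^ ((1 - δ) m) ≤ (1 + |L(α) - γ - b ^ m M|) ∏_a ‖L(α^(a)) - γ_a‖`. -/
theorem result :
    (∀ b : ℕ, 2 ≤ b → ∀ (s : ℕ) (α : Fin s → ℝ) (γ : ℝ), (∀ j, IsAlgebraic ℚ (α j)) → α ≠ 0 →
      IsAlgebraic ℚ γ → ∀ C δ : ℝ, 0 < δ →
      ∃ U : ℕ, ∀ m : ℕ, U ≤ m → ∀ n : Fin s → ℕ, (∀ j, U ≤ n j ∧ (n j : ℝ) ≤ C * m) →
        (∀ i j, i < j → n i + U ≤ n j) →
        (∀ M : ℤ, (b : ℝ) ^ ((1 - δ) * (m : ℝ)) ≤
          |∑ j, α j * W b (√2) (n j) m - γ - (b : ℝ) ^ m * M|) ∧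
        ((∃ j, Irrational (α j)) →
          (b : ℝ) ^ (-(δ * (m : ℝ))) ≤ dist (∑ j, α j * W b (√2) (n j) m - γ))) ∧
    (∀ (r : ℕ) (x : Fin r → ℝ), (∀ k, IsAlgebraic ℚ (x k)) →
      (∀ (a : ℚ) (c : Fin r → ℚ), (a : ℝ) + ∑ k, (c k : ℝ) * x k = 0 → a = 0 ∧ c = 0) →
      ∀ b : ℕ, 2 ≤ b → ∀ (s : ℕ) (α : Fin s → Fin r → ℝ) (γ : ℝ),
      (∀ j k, IsAlgebraic ℚ (α j k)) → α ≠ 0 → IsAlgebraic ℚ γ →
      ∀ (h : ℕ) (α' : Fin h → Fin s → Fin r → ℝ) (γ' : Fin h → ℝ),
      (∀ a j k, IsAlgebraic ℚ (α' a j k)) → (∀ a, IsAlgebraic ℚ (γ' a)) →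
      (∀ (c : ℚ) (c' : Fin h → ℚ), c' ≠ 0 →
        ∃ j k, Irrational ((c : ℝ) * α j k + ∑ a, (c' a : ℝ) * α' a j k)) →
      ∀ C δ : ℝ, 0 < δ →
      ∃ U : ℕ, ∀ m : ℕ, U ≤ m → ∀ n : Fin s → ℕ, (∀ j, U ≤ n j ∧ (n j : ℝ) ≤ C * m) →
        (∀ i j, i < j → n i + U ≤ n j) → ∀ M : ℤ,
        (b : ℝ) ^ ((1 - δ) * (m : ℝ)) ≤
          (1 + |∑ j, ∑ k, α j k * W b (x k) (n j) m - γ - (b : ℝ) ^ m * M|) *
          ∏ a, dist (∑ j, ∑ k, α' a j k * W b (x k) (n j) m - γ' a)) := by
  refine ⟨?_, ?_⟩
  · intro b hb s α γ hα hα0 hγ C δ hδ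
    have halg : IsAlgebraic ℚ (√2) := by
      refine IsAlgebraic.of_pow (show 0 < 2 by norm_num) ?_
      rw [Real.sq_sqrt (by norm_num)]
      exact isAlgebraic_natCast 2
    have hxi : ∀ (a : ℤ) (c : Fin 1 → ℤ), (a : ℝ) + ∑ k, (c k : ℝ) * (fun _ : Fin 1 => √2) k = 0 →
        c = 0 := by
      intro a c h0
      rw [Fin.sum_univ_one] at h0
      funext i
      rw [Subsingleton.elim i 0]
      by_contra hc
      simp only [Pi.zero_apply] at hc
      have hcR : (c 0 : ℝ) ≠ 0 := by exact_mod_cast hc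
      apply irrational_sqrt_two
      refine ⟨-(a : ℚ) / (c 0 : ℚ), ?_⟩
      push_cast
      rw [div_eq_iff hcR]
      linarith
    obtain ⟨U1, hU1⟩ := Pool.Agent.U773.JB.places (s := s) hb (fun _ : Fin 1 => √2)
      (fun _ => halg) hxi (fun j _ => α j) (fun j _ => hα j) (by
        intro h0
        apply hα0
        funext j
        exact congrFun (congrFun h0 j) 0) γ hγ C δ hδ
    by_cases hirr : ∃ j, Irrational (α j)
    · obtain ⟨j0, hj0⟩ := hirr
      obtain ⟨U2, hU2⟩ := Pool.Agent.U773.JB.nearest (s := s) (h := 1) hb (fun _ : Fin 1 => √2)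
        (fun _ => halg) hxi (fun _ j _ => α j) (fun _ j _ => hα j) (by
          intro c hc
          have hc0 : c 0 ≠ 0 := by
            intro h0
            apply hc
            funext i
            rw [Subsingleton.elim i 0]
            exact h0
          refine ⟨j0, 0, fun q hq => ?_⟩
          rw [Fin.sum_univ_one] at hq
          exact (hj0.intCast_mul hc0) ⟨q, by push_cast; exact hq.symm⟩) (fun _ => γ)
        (fun _ => hγ) C δ hδ
      refine ⟨U1 + U2, fun m hm n hn hgap => ⟨fun M => ?_, fun _ => ?_⟩⟩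
      · have := hU1 m (by omega) n (fun j => ⟨by have := (hn j).1; omega, (hn j).2⟩)
          (fun i j hij => by have := hgap i j hij; omega) M
        simpa [W, Pool.Agent.U773.BD.blk] using this
      · have := hU2 m (by omega) n (fun j => ⟨by have := (hn j).1; omega, (hn j).2⟩)
          (fun i j hij => by have := hgap i j hij; omega)
        simpa [W, dist, Pool.Agent.U773.BD.blk] using this
    · refine ⟨U1, fun m hm n hn hgap => ⟨fun M => ?_, fun h => absurd h hirr⟩⟩
      have := hU1 m hm n hn hgap M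
      simpa [W, Pool.Agent.U773.BD.blk] using this
  · intro r x hx hxi b hb s α γ hα hα0 hγ h α' γ' hα' hγ' hind C δ hδ
    refine Pool.Agent.U773.JB.joint hb x hx (fun a c h0 => ?_) α hα hα0 γ hγ α' hα'
      (fun c0 c hc => ?_) γ' hγ' C δ hδ
    · have h1 := (hxi a (fun i => (c i : ℚ)) (by push_cast; exact h0)).2
      funext i
      have h2 := congrFun h1 i
      simpa using h2
    · obtain ⟨j, k, hjk⟩ := hind c0 (fun a => (c a : ℚ)) (by
        intro h0
        apply hc
        funext i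
        have h2 := congrFun h0 i
        simpa using h2)
      refine ⟨j, k, fun q hq => hjk ⟨q, ?_⟩⟩
      push_cast at hq ⊢
      rw [← hq]

end Pool.Agent.Results.MP_0308e6_nt.JointBlocks
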